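import Pool.Agent.R896.DC.Asm
import Pool.Agent.R896.DC.Perm
import Pool.Agent.R896.DC.GeoB
import Pool.Agent.R896.DC.Geo
import Pool.Agent.R896.DC.Loc
import Pool.Agent.R896.DC.Far
import Pool.Agent.R896.DC.Step
import Pool.Agent.R896.DC.Low
import Pool.Agent.R896.DC.Bad
import Pool.Agent.R896.DC.DetU
import Pool.Agent.R896.DC.DetL
import Pool.Agent.R896.DC.DE

/-! The diameter of random cubical graphs (MP_d3947f_pr, Q1, full answer).

A configuration `ω : Cfg n` gives one bit to every vertex `u : Fin n → Bool` of the cube (`Sum.inl u`)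
and one bit to every edge, the edge between `u` and its neighbour in direction `i` being indexed by
`ed u i = Sum.inr (Function.update u i false, i)`.  The bits are independent, a vertex bit is `true` with
probability `pv` and an edge bit is `true` with probability `pe` (weights `wt (bp pv pe n)`; the index
type also contains pairs `(u, i)` with `u i = true`, whose bits are not used).  In `G ω` two vertices
are adjacent iff both are present, they differ in exactly one coordinate, and the bit of the edge
is `true`.  `Dists ω` is the set of all graph distances between present vertices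
of the same component of `G ω`, so `IsGreatest (Dists ω) d` says that `D(h_n) = d`. -/

set_option autoImplicit false

namespace Pool.Agent.Results.MP_d3947f_pr.CubicalDiameter

open Filter Topology Pool.Agent.R896.DC

/-- For all fixed `pv, pe ∈ (0,1]` with `p = pv * pe < 1/2`, the probability that
`D(h_n) = n + m_p`, `m_p = ⌊-1 / log_2 (1 - p)⌋`, tends to `1`. -/
theorem result (pv pe : ℝ) (h1 : 0 < pv) (h2 : pv ≤ 1) (h3 : 0 < pe) (h4 : pe ≤ 1)
    (hp : pv * pe < 1 / 2) :
    Tendsto (fun n => Pr (bp pv pe n)
      {ω | IsGreatest (Dists ω) (n + ⌊-1 / Real.logb 2 (1 - pv * pe)⌋₊)}) atTop (𝓝 1) :=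
  assemble pv pe h1 h2 h3 h4 hp
    (far h1 h2 h3 h4 geoB (geo h1 h2 h3 h4 perm) (loc h1 h2 h3 h4 geoB (geo h1 h2 h3 h4 perm)))
    (step h1 h2 h3 h4) (fun m hm => low h1 h2 h3 h4 m hm) (fun m => bad h1 h2 h3 h4 m)
    (detU geoB) detL (fun m => dE h1 h2 h3 h4 m)

end Pool.Agent.Results.MP_d3947f_pr.CubicalDiameter
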